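import Pool.Agent.H75.PS.Main
import Pool.Agent.H93.ES.Targets

/-!
# MP_c59857_nt, theorem (LI): the additive energy of the primes of an octave
-/

set_option autoImplicit false

open Finset Filter

namespace Pool.Agent.H6.QP

open Pool.Agent.H75.PS Pool.Agent.H93.DE

theorem energy_aux (Q : ℕ) (hQ0 : 0 < Q) (hQe : Even Q) : ∃ m₁ : ℕ, ∀ m, m₁ ≤ m →
    ∀ G : Finset ℕ, (∀ p ∈ G, p.Prime ∧ p ≡ 1 [MOD Q] ∧ 2 ^ m < p ∧ p ≤ 2 ^ (m + 1)) →
    ∑ s ∈ (G ×ˢ G).image (fun pq : ℕ × ℕ => (pq.1 : ℤ) - pq.2),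
      ((((G ×ˢ G).filter (fun pq : ℕ × ℕ => (pq.1 : ℤ) - pq.2 = s)).card : ℕ) : ℝ) ^ 2 ≤
      (2 + 2 * 200000 ^ 2 * CC ^ 4) * (((2:ℝ) ^ m * Q / ((Nat.totient Q : ℝ) ^ 2 * (m:ℝ) ^ 2)) ^ 2 *
        ((2:ℝ) ^ m / Q)) := by
  classical
  have hC := CC_nonneg
  set K : ℝ := 2 + 2 * 200000 ^ 2 * CC ^ 4 with hK
  have hK0 : 0 < K := by positivity
  obtain ⟨m₁, hm₁⟩ := growth Q
  refine ⟨m₁, fun m hm G hG => ?_⟩
  obtain ⟨h96, hQm, hg3, hg4⟩ := hm₁ m hm
  have hQr : (0:ℝ) < Q := by exact_mod_cast hQ0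
  have hφ : (0:ℝ) < (Nat.totient Q : ℝ) := by exact_mod_cast Nat.totient_pos.mpr hQ0
  have hφQ : (Nat.totient Q : ℝ) ≤ Q := by exact_mod_cast Nat.totient_le Q
  have hm0 : (0:ℝ) < m := by
    have : 0 < m := by omega
    exact_mod_cast this
  have hM : (0:ℝ) < (2:ℝ) ^ m := by positivity
  -- structure of elements
  have hstr : ∀ p ∈ G, ∃ n, p = Q * n + 1 ∧ (2 ^ m + (Q - 1)) / Q ≤ n ∧
      n < (2 ^ m + (Q - 1)) / Q + (2 ^ m / Q + 1) := by
    intro p hp
    obtain ⟨hpp, hpQ, h1, h2⟩ := hG p hp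
    have h3 : Q ∣ p - 1 := (Nat.modEq_iff_dvd' hpp.one_lt.le).mp hpQ.symm
    obtain ⟨n, hn⟩ := h3
    have hpn : p = Q * n + 1 := by have := hpp.one_lt; omega
    refine ⟨n, hpn, ?_, ?_⟩
    · rw [Nat.div_le_iff_le_mul_add_pred hQ0]
      omega
    · have e1 := ceil_mul Q m hQ0
      by_contra hcon
      rw [not_lt] at hcon
      have e2 : Q * ((2 ^ m + (Q - 1)) / Q + (2 ^ m / Q + 1)) ≤ Q * n := Nat.mul_le_mul_left Q hcon
      have e3 : 2 ^ m < Q * (2 ^ m / Q + 1) := by
        have := Nat.lt_mul_div_succ (2 ^ m) hQ0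
        exact this
      rw [Nat.mul_add] at e2
      have e4 : 2 ^ (m + 1) = 2 * 2 ^ m := by ring
      omega
  set D := (G ×ˢ G).image (fun pq : ℕ × ℕ => (pq.1 : ℤ) - pq.2) with hD
  set r : ℤ → ℕ := fun s => ((G ×ˢ G).filter (fun pq : ℕ × ℕ => (pq.1 : ℤ) - pq.2 = s)).card
    with hr
  -- bound for r
  set F : ℕ → ℝ := fun t => if t = 0 then (G.card : ℝ) ^ 2 else (cnt Q m t : ℝ) ^ 2 with hF
  have hFn : ∀ t, 0 ≤ F t := by
    intro t
    rw [hF]
    simp only
    split_ifs <;> positivity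
  have hDs : ∀ s ∈ D, ∃ k : ℕ, (s = (Q * k : ℕ) ∨ s = -((Q * k : ℕ) : ℤ)) ∧ k ≤ 2 ^ m / Q := by
    intro s hs
    rw [hD, Finset.mem_image] at hs
    obtain ⟨⟨p, q⟩, hpq, rfl⟩ := hs
    rw [Finset.mem_product] at hpq
    obtain ⟨n1, hp1, hp2, hp3⟩ := hstr p hpq.1
    obtain ⟨n2, hq1, hq2, hq3⟩ := hstr q hpq.2
    simp only
    rcases le_total n2 n1 with hle | hle
    · refine ⟨n1 - n2, Or.inl ?_, by omega⟩
      obtain ⟨k, rfl⟩ := Nat.exists_eq_add_of_le hle
      rw [hp1, hq1]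
      push_cast
      simp
      ring
    · refine ⟨n2 - n1, Or.inr ?_, by omega⟩
      obtain ⟨k, rfl⟩ := Nat.exists_eq_add_of_le hle
      rw [hp1, hq1]
      push_cast
      simp
      ring
  have hrF : ∀ s ∈ D, (r s : ℝ) ^ 2 ≤ F (s.natAbs / Q) := by
    intro s hs
    obtain ⟨k, hk, hkT⟩ := hDs s hs
    have hk' : s.natAbs / Q = k := by
      rcases hk with hk | hk
      · rw [hk, Int.natAbs_natCast, Nat.mul_div_cancel_left k hQ0]
      · rw [hk, Int.natAbs_neg, Int.natAbs_natCast, Nat.mul_div_cancel_left k hQ0]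
    rw [hk']
    rw [hF]
    simp only
    split_ifs with hk0
    · -- s = 0
      have hs0 : s = 0 := by rcases hk with hk | hk <;> simp [hk, hk0]
      have : r s ≤ G.card := by
        rw [hr]
        simp only
        apply Finset.card_le_card_of_injOn (fun pq : ℕ × ℕ => pq.1)
        · intro pq hpq
          rw [Finset.mem_coe, Finset.mem_filter, Finset.mem_product] at hpq
          exact hpq.1.1
        · intro a ha b hb hab
          rw [Finset.mem_coe, Finset.mem_filter] at ha hb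
          have h1 := ha.2
          have h2 := hb.2
          rw [hs0] at h1 h2
          simp only at hab
          ext
          · exact hab
          · omega
      have : (r s : ℝ) ≤ G.card := by exact_mod_cast this
      gcongr
    · have : r s ≤ cnt Q m k := by
        rw [hr]
        simp only
        unfold cnt
        rcases hk with hk | hk
        · apply Finset.card_le_card_of_injOn (fun pq : ℕ × ℕ => (pq.2 - 1) / Q)
          · intro pq hpq
            rw [Finset.mem_coe, Finset.mem_filter, Finset.mem_product] at hpq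
            obtain ⟨n1, hp1, hp2, hp3⟩ := hstr pq.1 hpq.1.1
            obtain ⟨n2, hq1, hq2, hq3⟩ := hstr pq.2 hpq.1.2
            have hn : (pq.2 - 1) / Q = n2 := by
              rw [hq1, Nat.add_sub_cancel, Nat.mul_div_cancel_left _ hQ0]
            rw [Finset.mem_coe, Finset.mem_filter, Finset.mem_Ico]
            simp only [hn]
            refine ⟨⟨hq2, hq3⟩, ?_, ?_⟩
            · rw [← hq1]; exact (hG _ hpq.1.2).1
            · have : Q * n2 + 1 + Q * k = pq.1 := by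
                have h5 := hpq.2
                rw [hk, hq1] at h5
                push_cast at h5
                have h6 : ((pq.1 : ℕ) : ℤ) = ((Q * n2 + 1 + Q * k : ℕ) : ℤ) := by
                  push_cast; linarith
                exact_mod_cast h6.symm
              rw [this]; exact (hG _ hpq.1.1).1
          · intro a ha b hb hab
            rw [Finset.mem_coe, Finset.mem_filter, Finset.mem_product] at ha hb
            obtain ⟨n2, hq1, _, _⟩ := hstr a.2 ha.1.2
            obtain ⟨n3, hq2, _, _⟩ := hstr b.2 hb.1.2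
            simp only at hab
            rw [hq1, hq2, Nat.add_sub_cancel, Nat.add_sub_cancel, Nat.mul_div_cancel_left _ hQ0,
              Nat.mul_div_cancel_left _ hQ0] at hab
            have h2 : a.2 = b.2 := by rw [hq1, hq2, hab]
            have h1 := ha.2
            have h3 := hb.2
            ext
            · omega
            · exact h2
        · apply Finset.card_le_card_of_injOn (fun pq : ℕ × ℕ => (pq.1 - 1) / Q)
          · intro pq hpq
            rw [Finset.mem_coe, Finset.mem_filter, Finset.mem_product] at hpq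
            obtain ⟨n1, hp1, hp2, hp3⟩ := hstr pq.1 hpq.1.1
            obtain ⟨n2, hq1, hq2, hq3⟩ := hstr pq.2 hpq.1.2
            have hn : (pq.1 - 1) / Q = n1 := by
              rw [hp1, Nat.add_sub_cancel, Nat.mul_div_cancel_left _ hQ0]
            rw [Finset.mem_coe, Finset.mem_filter, Finset.mem_Ico]
            simp only [hn]
            refine ⟨⟨hp2, hp3⟩, ?_, ?_⟩
            · rw [← hp1]; exact (hG _ hpq.1.1).1
            · have : Q * n1 + 1 + Q * k = pq.2 := by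
                have h5 := hpq.2
                rw [hk, hp1] at h5
                push_cast at h5
                have h6 : ((pq.2 : ℕ) : ℤ) = ((Q * n1 + 1 + Q * k : ℕ) : ℤ) := by
                  push_cast; linarith
                exact_mod_cast h6.symm
              rw [this]; exact (hG _ hpq.1.2).1
          · intro a ha b hb hab
            rw [Finset.mem_coe, Finset.mem_filter, Finset.mem_product] at ha hb
            obtain ⟨n2, hq1, _, _⟩ := hstr a.1 ha.1.1
            obtain ⟨n3, hq2, _, _⟩ := hstr b.1 hb.1.1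
            simp only at hab
            rw [hq1, hq2, Nat.add_sub_cancel, Nat.add_sub_cancel, Nat.mul_div_cancel_left _ hQ0,
              Nat.mul_div_cancel_left _ hQ0] at hab
            have h2 : a.1 = b.1 := by rw [hq1, hq2, hab]
            have h1 := ha.2
            have h3 := hb.2
            ext
            · exact h2
            · omega
      have h7 : (r s : ℝ) ≤ cnt Q m k := Nat.cast_le.mpr this
      exact pow_le_pow_left₀ (Nat.cast_nonneg _) h7 2
  -- sum over D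
  set T := 2 ^ m / Q with hT
  have hDF : ∑ s ∈ D, F (s.natAbs / Q) ≤ ∑ t ∈ Finset.range (T + 1), 2 * F t := by
    have hmaps : ∀ s ∈ D, s.natAbs / Q ∈ Finset.range (T + 1) := by
      intro s hs
      obtain ⟨k, hk, hkT⟩ := hDs s hs
      have hk' : s.natAbs / Q = k := by
        rcases hk with hk | hk
        · rw [hk, Int.natAbs_natCast, Nat.mul_div_cancel_left k hQ0]
        · rw [hk, Int.natAbs_neg, Int.natAbs_natCast, Nat.mul_div_cancel_left k hQ0]
      rw [hk', Finset.mem_range]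
      omega
    rw [← Finset.sum_fiberwise_of_maps_to hmaps]
    apply Finset.sum_le_sum
    intro t _
    have h1 : ∀ s ∈ D.filter (fun s => s.natAbs / Q = t), F (s.natAbs / Q) = F t := by
      intro s hs
      rw [Finset.mem_filter] at hs
      rw [hs.2]
    rw [Finset.sum_congr rfl h1, Finset.sum_const, nsmul_eq_mul]
    have h2 : (D.filter (fun s => s.natAbs / Q = t)).card ≤ 2 := by
      have hsub : D.filter (fun s => s.natAbs / Q = t) ⊆
          {((Q * t : ℕ) : ℤ), -((Q * t : ℕ) : ℤ)} := by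
        intro s hs
        rw [Finset.mem_filter] at hs
        obtain ⟨k, hk, hkT⟩ := hDs s hs.1
        have hk' : s.natAbs / Q = k := by
          rcases hk with hk | hk
          · rw [hk, Int.natAbs_natCast, Nat.mul_div_cancel_left k hQ0]
          · rw [hk, Int.natAbs_neg, Int.natAbs_natCast, Nat.mul_div_cancel_left k hQ0]
        have : k = t := by rw [← hk', hs.2]
        rw [Finset.mem_insert, Finset.mem_singleton, ← this]
        exact hk
      exact (Finset.card_le_card hsub).trans Finset.card_le_two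
    have h3 : ((D.filter (fun s => s.natAbs / Q = t)).card : ℝ) ≤ 2 := by exact_mod_cast h2
    have := hFn t
    gcongr
  set X := (2:ℝ) ^ m * Q / ((Nat.totient Q : ℝ) ^ 2 * (m:ℝ) ^ 2) with hX
  have hX0 : 0 < X := by positivity
  have hTle : (T : ℝ) ≤ (2:ℝ) ^ m / Q := by
    have := @Nat.cast_div_le ℝ _ _ _ (2 ^ m) Q
    push_cast at this
    rw [hT]
    exact this
  have hFsum : ∑ t ∈ Finset.range (T + 1), 2 * F t ≤
      2 * (G.card : ℝ) ^ 2 + 2 * 200000 ^ 2 * CC ^ 4 * (X ^ 2 * ((2:ℝ) ^ m / Q)) := by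
    rw [Finset.sum_range_succ', add_comm]
    apply add_le_add
    · rw [hF]; simp
    · calc ∑ t ∈ Finset.range T, 2 * F (t + 1)
          = ∑ t ∈ Finset.Icc 1 T, 2 * F t := by
            rw [Finset.range_eq_Ico, Finset.sum_Ico_add' (fun t => 2 * F t) 0 T 1]
            apply Finset.sum_congr _ (fun _ _ => rfl)
            ext x
            simp only [Finset.mem_Ico, Finset.mem_Icc]
            omega
        _ ≤ ∑ t ∈ Finset.Icc 1 T, 2 * (200000 ^ 2 * X ^ 2 *
              (∏ p ∈ t.primeFactors, (1 + 1 / (p : ℝ))) ^ 4) := by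
            apply Finset.sum_le_sum
            intro t ht
            rw [Finset.mem_Icc] at ht
            have ht0 : t ≠ 0 := by omega
            have h1 := cnt_le Q m t hQe hQ0 (by omega) h96 hQm hg3
            have h0 : (0:ℝ) ≤ cnt Q m t := by positivity
            have h2 : F t = (cnt Q m t : ℝ) ^ 2 := by rw [hF]; simp [ht0]
            rw [h2]
            have h3 : (cnt Q m t : ℝ) ^ 2 ≤
              (200000 * X * (∏ p ∈ t.primeFactors, (1 + 1 / (p : ℝ))) ^ 2) ^ 2 := by gcongr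
            calc 2 * (cnt Q m t : ℝ) ^ 2 ≤
              2 * (200000 * X * (∏ p ∈ t.primeFactors, (1 + 1 / (p : ℝ))) ^ 2) ^ 2 := by gcongr
              _ = _ := by ring
        _ = 2 * 200000 ^ 2 * X ^ 2 * ∑ t ∈ Finset.Icc 1 T,
              (∏ p ∈ t.primeFactors, (1 + 1 / (p : ℝ))) ^ 4 := by
            rw [Finset.mul_sum]
            apply Finset.sum_congr rfl
            intro t _
            ring
        _ ≤ 2 * 200000 ^ 2 * X ^ 2 * (CC ^ 4 * T) := by
            have := moment T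
            gcongr
        _ ≤ 2 * 200000 ^ 2 * X ^ 2 * (CC ^ 4 * ((2:ℝ) ^ m / Q)) := by gcongr
        _ = _ := by ring
  set Y := X ^ 2 * ((2:ℝ) ^ m / Q) with hY
  have hY0 : 0 < Y := by positivity
  -- trivial bound for G
  have hGle : (G.card : ℝ) ≤ 2 * 2 ^ m / Q := by
    have h1 : G.card ≤ (2 ^ m / Q + 1) := by
      have h2 : G.card ≤ (Finset.Ico ((2 ^ m + (Q - 1)) / Q)
          ((2 ^ m + (Q - 1)) / Q + (2 ^ m / Q + 1))).card := by
        apply Finset.card_le_card_of_injOn (fun p => (p - 1) / Q)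
        · intro p hp
          obtain ⟨n, hn1, hn2, hn3⟩ := hstr p hp
          have hn : (p - 1) / Q = n := by
            rw [hn1, Nat.add_sub_cancel, Nat.mul_div_cancel_left _ hQ0]
          rw [Finset.mem_coe, Finset.mem_Ico]
          simp only [hn]
          exact ⟨hn2, hn3⟩
        · intro a ha b hb hab
          obtain ⟨n2, hq1, _, _⟩ := hstr a ha
          obtain ⟨n3, hq2, _, _⟩ := hstr b hb
          simp only at hab
          rw [hq1, hq2, Nat.add_sub_cancel, Nat.add_sub_cancel, Nat.mul_div_cancel_left _ hQ0,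
            Nat.mul_div_cancel_left _ hQ0] at hab
          rw [hq1, hq2, hab]
      rw [Nat.card_Ico, Nat.add_sub_cancel_left] at h2
      exact h2
    have h2 : (1:ℝ) ≤ (2:ℝ) ^ m / Q := by
      rw [le_div_iff₀ hQr, one_mul]
      exact_mod_cast hQm
    have h3 : (G.card : ℝ) ≤ (T : ℝ) + 1 := by exact_mod_cast h1
    calc (G.card : ℝ) ≤ (2:ℝ) ^ m / Q + (2:ℝ) ^ m / Q := by linarith
      _ = _ := by ring
  have hG2 : (G.card : ℝ) ^ 2 ≤ Y := by
    have h1 : (G.card : ℝ) ^ 2 ≤ (2 * 2 ^ m / Q) ^ 2 := by gcongr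
    refine h1.trans ?_
    have h2 : Y = ((2:ℝ) ^ m) ^ 3 * Q / ((Nat.totient Q : ℝ) ^ 4 * (m:ℝ) ^ 4) := by
      rw [hY, hX]
      field_simp
    rw [h2, div_pow, div_le_div_iff₀ (by positivity) (by positivity)]
    have h3 : (Nat.totient Q : ℝ) ^ 4 ≤ (Q:ℝ) ^ 4 := by gcongr
    calc (2 * 2 ^ m) ^ 2 * ((Nat.totient Q : ℝ) ^ 4 * (m:ℝ) ^ 4)
        ≤ (2 * 2 ^ m) ^ 2 * ((Q : ℝ) ^ 4 * (m:ℝ) ^ 4) := by gcongr
      _ = ((2:ℝ) ^ m) ^ 2 * (Q:ℝ) ^ 3 * (4 * Q * (m:ℝ) ^ 4) := by ring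
      _ ≤ ((2:ℝ) ^ m) ^ 2 * (Q:ℝ) ^ 3 * 2 ^ m := by gcongr
      _ = ((2:ℝ) ^ m) ^ 3 * Q * (Q:ℝ) ^ 2 := by ring
  calc ∑ s ∈ D, (r s : ℝ) ^ 2 ≤ ∑ s ∈ D, F (s.natAbs / Q) := Finset.sum_le_sum hrF
    _ ≤ ∑ t ∈ Finset.range (T + 1), 2 * F t := hDF
    _ ≤ 2 * (G.card : ℝ) ^ 2 + 2 * 200000 ^ 2 * CC ^ 4 * Y := hFsum
    _ ≤ 2 * Y + 2 * 200000 ^ 2 * CC ^ 4 * Y := by linarith
    _ = K * Y := by rw [hK]; ring

/-- AEN. The additive energy of the primes of an octave. -/
def T_AEN : Prop := ∃ (C : ℝ) (m₀ : ℕ), 0 < C ∧ ∀ m : ℕ, m₀ ≤ m →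
  ((((oct m ×ˢ oct m) ×ˢ (oct m ×ˢ oct m)).filter
    (fun v : (ℕ × ℕ) × (ℕ × ℕ) => v.1.1 + v.2.2 = v.2.1 + v.1.2)).card : ℝ) ≤
      C * (2 ^ m) ^ 3 / (m : ℝ) ^ 4

theorem pf_AEN : T_AEN := by
  classical
  obtain ⟨m₁, h⟩ := energy_aux 2 (by norm_num) (by decide)
  have hC := CC_nonneg
  refine ⟨(2 + 2 * 200000 ^ 2 * CC ^ 4) * 2, max m₁ 1, by positivity, fun m hm => ?_⟩
  have hm1 : m₁ ≤ m := (le_max_left _ _).trans hm
  have hm2 : 1 ≤ m := (le_max_right _ _).trans hm
  have hG : ∀ p ∈ oct m, p.Prime ∧ p ≡ 1 [MOD 2] ∧ 2 ^ m < p ∧ p ≤ 2 ^ (m + 1) := by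
    intro p hp
    unfold oct at hp
    rw [mem_filter, mem_Ioc] at hp
    refine ⟨hp.2, ?_, hp.1.1, hp.1.2⟩
    have h2 : 2 < p := lt_of_le_of_lt (by
      calc 2 = 2 ^ 1 := by norm_num
        _ ≤ 2 ^ m := Nat.pow_le_pow_right (by norm_num) hm2) hp.1.1
    have h3 : p % 2 = 1 := by
      rcases hp.2.eq_two_or_odd with h4 | h4
      · omega
      · exact h4
    exact h3
  have h1 := h m hm1 (oct m) hG
  have hm0 : (0 : ℝ) < m := by exact_mod_cast hm2
  have hY : ((2:ℝ) ^ m * (2 : ℕ) / ((Nat.totient 2 : ℝ) ^ 2 * (m:ℝ) ^ 2)) ^ 2 *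
        ((2:ℝ) ^ m / (2 : ℕ)) = 2 * (2 ^ m) ^ 3 / (m : ℝ) ^ 4 := by
    rw [Nat.totient_two]
    push_cast
    field_simp
  rw [hY] at h1
  refine le_trans (le_of_eq ?_) (h1.trans (le_of_eq (by ring)))
  set G := oct m
  have h2 : (((G ×ˢ G) ×ˢ (G ×ˢ G)).filter
      (fun v : (ℕ × ℕ) × (ℕ × ℕ) => v.1.1 + v.2.2 = v.2.1 + v.1.2)).card =
      ∑ s ∈ (G ×ˢ G).image (fun pq : ℕ × ℕ => (pq.1 : ℤ) - pq.2),
        (((G ×ˢ G).filter (fun pq : ℕ × ℕ => (pq.1 : ℤ) - pq.2 = s)).card) ^ 2 := by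
    rw [Finset.card_eq_sum_card_fiberwise
      (f := fun v : (ℕ × ℕ) × (ℕ × ℕ) => ((v.1.1 : ℕ) : ℤ) - v.1.2)
      (t := (G ×ˢ G).image (fun pq : ℕ × ℕ => (pq.1 : ℤ) - pq.2))]
    · apply Finset.sum_congr rfl
      intro s _
      rw [sq, ← Finset.card_product]
      congr 1
      ext v
      simp only [mem_filter, mem_product]
      constructor
      · rintro ⟨⟨⟨h3, h4⟩, h5⟩, h6⟩
        exact ⟨⟨h3, h6⟩, ⟨h4, by omega⟩⟩
      · rintro ⟨⟨h3, h6⟩, ⟨h4, h7⟩⟩
        exact ⟨⟨⟨h3, h4⟩, by omega⟩, h6⟩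
    · intro v hv
      rw [Finset.mem_coe, mem_filter, mem_product] at hv
      exact Finset.mem_coe.2 (Finset.mem_image_of_mem _ hv.1.1)
  rw [h2]
  push_cast
  rfl

end Pool.Agent.H6.QP
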