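import Pool.Agent.H87.QP.Targets

/-!
# MP_c59857_nt, theorem (QP): the large sieve for two points at a distance `q h`
-/

set_option autoImplicit false

namespace Pool.Agent.H6.QP

open Finset Pool.Agent.H93.DE Pool.Agent.H93.ES

/-- the function `q 1_(q | n) - 1` on the integers -/
noncomputable def DZ (q : ℕ) (n : ℤ) : ℝ := (if (q : ℤ) ∣ n then (q : ℝ) else 0) - 1

/-- the mean over the classes of the centred divisibility with the weights `c` -/
noncomputable def cg (q : ℕ) (c : ℕ → ℝ) (t : ℤ) : ℝ := (∑ r ∈ range q, c r * DZ q (r + t)) / q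

lemma DR_eq (q n : ℕ) : DR q n = DZ q n := by
  unfold DR DZ
  simp only [Int.natCast_dvd_natCast]

lemma cnt (q : ℕ) (hq : 0 < q) (s : ℤ) :
    ∑ t ∈ range q, (if (q : ℤ) ∣ s + t then (q : ℝ) else 0) = q := by
  have hq' : (0 : ℤ) < q := by exact_mod_cast hq
  set t₀ : ℕ := ((-s) % (q : ℤ)).toNat with ht₀
  have h0 : ((t₀ : ℕ) : ℤ) = (-s) % (q : ℤ) := Int.toNat_of_nonneg (Int.emod_nonneg _ hq'.ne')
  have h1 : t₀ < q := by
    have := Int.emod_lt_of_pos (-s) hq'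
    omega
  rw [Finset.sum_eq_single t₀]
  · rw [if_pos]
    rw [h0]
    have : s + (-s) % (q : ℤ) = -(((-s) / q) * q) := by
      have := Int.emod_add_mul_ediv (-s) q
      linarith
    rw [this]
    exact (dvd_neg).2 (dvd_mul_left _ _)
  · intro t ht hne
    rw [if_neg]
    intro hd
    apply hne
    have h2 : t < q := mem_range.1 ht
    have h3 : (q : ℤ) ∣ (s + t) - (s + (t₀ : ℕ)) := by
      apply dvd_sub hd
      rw [h0]
      have : s + (-s) % (q : ℤ) = -(((-s) / q) * q) := by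
        have := Int.emod_add_mul_ediv (-s) q
        linarith
      rw [this]
      exact (dvd_neg).2 (dvd_mul_left _ _)
    have h4 : (s + t) - (s + (t₀ : ℕ)) = (t : ℤ) - t₀ := by ring
    rw [h4] at h3
    have h5 : |(t : ℤ) - t₀| < q := by
      rw [abs_lt]; constructor <;> omega
    have := Int.eq_zero_of_abs_lt_dvd h3 h5
    omega
  · intro h
    exact absurd (mem_range.2 h1) h

lemma DZ_sum (q : ℕ) (hq : 0 < q) (s : ℤ) : ∑ t ∈ range q, DZ q (s + t) = 0 := by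
  unfold DZ
  rw [Finset.sum_sub_distrib, cnt q hq s]
  simp

lemma DZ_abs_sum (q : ℕ) (hq : 0 < q) (t : ℤ) : ∑ r ∈ range q, |DZ q (r + t)| ≤ 2 * q := by
  have : ∀ r ∈ range q, |DZ q (r + t)| ≤ (if (q : ℤ) ∣ t + r then (q : ℝ) else 0) + 1 := by
    intro r _
    unfold DZ
    rw [add_comm (r : ℤ) t]
    split_ifs
    · rw [abs_le]
      constructor <;> linarith [(Nat.cast_nonneg q : (0 : ℝ) ≤ q)]
    · simp
  refine (Finset.sum_le_sum this).trans ?_
  rw [Finset.sum_add_distrib, cnt q hq t]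
  simp
  linarith

lemma cg_abs (q : ℕ) (hq : 0 < q) (c : ℕ → ℝ) (hc : ∀ r, |c r| ≤ 1) (t : ℤ) : |cg q c t| ≤ 2 := by
  have hq' : (0 : ℝ) < q := by exact_mod_cast hq
  unfold cg
  rw [abs_div, abs_of_pos hq', div_le_iff₀ hq']
  calc |∑ r ∈ range q, c r * DZ q (r + t)| ≤ ∑ r ∈ range q, |c r * DZ q (r + t)| :=
        Finset.abs_sum_le_sum_abs _ _
    _ ≤ ∑ r ∈ range q, |DZ q (r + t)| := by
        apply Finset.sum_le_sum
        intro r _
        rw [abs_mul]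
        exact mul_le_of_le_one_left (abs_nonneg _) (hc r)
    _ ≤ 2 * q := DZ_abs_sum q hq t

lemma cg_per (q : ℕ) (c : ℕ → ℝ) (t k : ℤ) : cg q c (t + k * q) = cg q c t := by
  unfold cg DZ
  congr 1
  apply Finset.sum_congr rfl
  intro r _
  have : ((q : ℤ) ∣ (r : ℤ) + (t + k * q)) ↔ ((q : ℤ) ∣ (r : ℤ) + t) := by
    rw [← add_assoc]
    exact dvd_add_left (dvd_mul_left _ _)
  simp only [this]

lemma cg_sum (q : ℕ) (hq : 0 < q) (c : ℕ → ℝ) : ∑ t ∈ range q, cg q c t = 0 := by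
  unfold cg
  rw [← Finset.sum_div, Finset.sum_comm]
  have : ∀ r ∈ range q, ∑ t ∈ range q, c r * DZ q (r + t) = 0 := by
    intro r _
    rw [← Finset.mul_sum, DZ_sum q hq r, mul_zero]
  rw [Finset.sum_congr rfl this]
  simp

/-- periodicity in steps -/
lemma per_nat (F : ℤ → ℝ) (M : ℤ) (hF : ∀ t, F (t + M) = F t) (t : ℤ) (k : ℕ) :
    F (t + k * M) = F t := by
  induction k with
  | zero => simp
  | succ k ih =>
    have : t + ((k + 1 : ℕ) : ℤ) * M = (t + k * M) + M := by push_cast; ring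
    rw [this, hF, ih]

lemma sum_blocks (a : ℕ → ℝ) (n M : ℕ) :
    ∑ t ∈ range (n * M), a t = ∑ i ∈ range n, ∑ j ∈ range M, a (i * M + j) := by
  induction n with
  | zero => simp
  | succ n ih =>
    rw [Nat.succ_mul, Finset.sum_range_add, ih, Finset.sum_range_succ]

lemma per_mod (F : ℤ → ℝ) (n : ℕ) (hF : ∀ t, F (t + n) = F t) (x : ℕ) :
    F (x : ℤ) = F ((x % n : ℕ) : ℤ) := by
  have h := per_nat F n hF ((x % n : ℕ) : ℤ) (x / n)
  have e : (x : ℤ) = ((x % n : ℕ) : ℤ) + ((x / n : ℕ) : ℤ) * (n : ℤ) := by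
    have h2 : x % n + (x / n) * n = x := by rw [mul_comm]; exact Nat.mod_add_div x n
    have h3 : (((x % n + (x / n) * n : ℕ)) : ℤ) = (x : ℤ) := by rw [h2]
    rw [← h3]
    rw [Nat.cast_add, Nat.cast_mul]
  rw [← h]
  exact congrArg F e

lemma per_zero (n M : ℕ) (hn : 0 < n) (hc : Nat.Coprime n M) (F G : ℤ → ℝ)
    (hF : ∀ t, F (t + n) = F t) (hz : ∑ i ∈ range n, F i = 0) (hG : ∀ t, G (t + M) = G t) :
    ∑ t ∈ range (n * M), F t * G t = 0 := by
  rw [sum_blocks (fun t => F t * G t) n M, Finset.sum_comm]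
  apply Finset.sum_eq_zero
  intro j _
  have h1 : ∀ i ∈ range n, F ((i * M + j : ℕ) : ℤ) * G ((i * M + j : ℕ) : ℤ) =
      F (((i * M + j) % n : ℕ) : ℤ) * G (j : ℤ) := by
    intro i _
    rw [per_mod F n hF (i * M + j)]
    congr 1
    have := per_nat G M hG (j : ℤ) i
    rw [← this]
    congr 1
    push_cast
    ring
  rw [Finset.sum_congr rfl h1, ← Finset.sum_mul]
  have h2 : ∑ i ∈ range n, F (((i * M + j) % n : ℕ) : ℤ) = ∑ i ∈ range n, F (i : ℤ) := by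
    have hinj : Set.InjOn (fun i => (i * M + j) % n) (range n : Finset ℕ) := by
      intro a ha b hb hab
      simp only [Finset.coe_range, Set.mem_Iio] at ha hb
      have h3 : a * M + j ≡ b * M + j [MOD n] := hab
      have h4 : a * M ≡ b * M [MOD n] := Nat.ModEq.add_right_cancel' j h3
      have h5 : a ≡ b [MOD n] := Nat.ModEq.cancel_right_of_coprime hc h4
      exact Nat.ModEq.eq_of_lt_of_lt h5 ha hb
    have himg : (range n).image (fun i => (i * M + j) % n) = range n := by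
      apply Finset.eq_of_subset_of_card_le
      · intro x hx
        obtain ⟨i, _, rfl⟩ := Finset.mem_image.1 hx
        exact mem_range.2 (Nat.mod_lt _ hn)
      · rw [Finset.card_image_of_injOn hinj]
    conv_rhs => rw [← himg]
    rw [Finset.sum_image hinj]
  rw [h2, hz, zero_mul]

lemma rest (H : ℤ → ℝ) (P : ℕ) (hP : 0 < P) (B : ℝ) (hH : ∀ t, H (t + P) = H t)
    (hz : ∑ t ∈ range P, H t = 0) (hb : ∀ t, |H t| ≤ B) (T : ℕ) :
    |∑ t ∈ range T, H t| ≤ P * B := by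
  have hT : T = (T / P) * P + T % P := by
    rw [mul_comm]; exact (Nat.div_add_mod T P).symm
  have hB : 0 ≤ B := (abs_nonneg _).trans (hb 0)
  rw [hT, Finset.sum_range_add, sum_blocks (fun t => H t)]
  have h1 : ∀ i ∈ range (T / P), ∑ j ∈ range P, H ((i * P + j : ℕ) : ℤ) = 0 := by
    intro i _
    rw [← hz]
    apply Finset.sum_congr rfl
    intro j _
    rw [← per_nat H P hH (j : ℤ) i]
    congr 1
    push_cast
    ring
  rw [Finset.sum_congr rfl h1]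
  simp only [Finset.sum_const_zero, zero_add]
  refine (Finset.abs_sum_le_sum_abs _ _).trans ?_
  refine (Finset.sum_le_sum (fun j _ => hb _)).trans ?_
  simp only [sum_const, card_range, nsmul_eq_mul]
  apply mul_le_mul_of_nonneg_right _ hB
  exact_mod_cast (Nat.mod_lt T hP).le

lemma shift (H : ℤ → ℝ) (B : ℝ) (hb : ∀ t, |H t| ≤ B) (T s : ℕ) :
    ∑ t ∈ range T, H t ≤ ∑ t ∈ range T, H (t - s) + 2 * s * B := by
  induction s with
  | zero => simp
  | succ s ih =>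
    refine ih.trans ?_
    have h1 : ∀ T : ℕ, ∑ t ∈ range T, H (t - s) - ∑ t ∈ range T, H (t - (s + 1 : ℕ)) =
        H ((T : ℤ) - 1 - s) - H (-1 - s) := by
      intro T
      induction T with
      | zero => simp
      | succ T ih =>
        rw [Finset.sum_range_succ, Finset.sum_range_succ]
        have e1 : ((T : ℤ) - ((s + 1 : ℕ) : ℤ)) = (T : ℤ) - 1 - s := by push_cast; ring
        have e2 : (((T + 1 : ℕ) : ℤ) - 1 - s) = (T : ℤ) - s := by push_cast; ring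
        rw [e1, e2]
        linarith
    have h2 := h1 T
    have h3 := (abs_le.1 (hb ((T : ℤ) - 1 - s))).2
    have h4 := (abs_le.1 (hb (-1 - (s : ℤ)))).1
    push_cast at h2 ⊢
    linarith

/-- four different entries -/
def Dis (v : (ℕ × ℕ) × (ℕ × ℕ)) : Prop :=
  v.1.1 ≠ v.1.2 ∧ v.1.1 ≠ v.2.1 ∧ v.1.1 ≠ v.2.2 ∧ v.1.2 ≠ v.2.1 ∧ v.1.2 ≠ v.2.2 ∧ v.2.1 ≠ v.2.2

/-- equal differences -/
def Eqd (v : (ℕ × ℕ) × (ℕ × ℕ)) : Prop := (v.1.2 : ℤ) - v.1.1 = (v.2.2 : ℤ) - v.2.1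

open Classical in
lemma count (Q : Finset ℕ) :
    (((Q ×ˢ Q) ×ˢ (Q ×ˢ Q)).filter (fun v => Eqd v ∧ ¬ Dis v)).card ≤ 4 * Q.card ^ 2 := by
  set S1 := (Q ×ˢ Q).image (fun a : ℕ × ℕ => ((a.1, a.1), (a.2, a.2)))
  set S2 := (Q ×ˢ Q).image (fun a : ℕ × ℕ => ((a.1, a.2), (a.1, a.2)))
  set S3 := (Q ×ˢ Q).image (fun a : ℕ × ℕ => ((a.1, 2 * a.1 - a.2), (a.2, a.1)))
  set S4 := (Q ×ˢ Q).image (fun a : ℕ × ℕ => ((a.1, a.2), (a.2, 2 * a.2 - a.1)))
  have hsub : ((Q ×ˢ Q) ×ˢ (Q ×ˢ Q)).filter (fun v => Eqd v ∧ ¬ Dis v) ⊆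
      S1 ∪ (S2 ∪ (S3 ∪ S4)) := by
    rintro ⟨⟨a, b⟩, ⟨c, d⟩⟩ hv
    rw [mem_filter, mem_product, mem_product, mem_product] at hv
    simp only [Eqd, Dis] at hv
    obtain ⟨⟨⟨ha, hb⟩, hc, hd⟩, he, hn⟩ := hv
    simp only [S1, S2, S3, S4, mem_union, mem_image, mem_product, Prod.mk.injEq, Prod.exists]
    by_cases h1 : a = b
    · left
      exact ⟨a, c, ⟨ha, hc⟩, ⟨rfl, h1⟩, rfl, by omega⟩
    by_cases h2 : a = c
    · right; left
      exact ⟨a, b, ⟨ha, hb⟩, ⟨rfl, rfl⟩, h2, by omega⟩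
    by_cases h3 : a = d
    · right; right; left
      exact ⟨a, c, ⟨ha, hc⟩, ⟨rfl, by omega⟩, rfl, h3⟩
    by_cases h4 : b = c
    · right; right; right
      exact ⟨a, b, ⟨ha, hb⟩, ⟨rfl, rfl⟩, h4, by omega⟩
    exact absurd ⟨h1, h2, h3, h4, by omega, by omega⟩ hn
  have hc : ∀ f : ℕ × ℕ → (ℕ × ℕ) × (ℕ × ℕ), ((Q ×ˢ Q).image f).card ≤ Q.card ^ 2 := by
    intro f
    refine Finset.card_image_le.trans ?_
    rw [card_product, sq]
  refine (Finset.card_le_card hsub).trans ?_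
  refine (Finset.card_union_le _ _).trans ?_
  have e1 := Finset.card_union_le S2 (S3 ∪ S4)
  have e2 := Finset.card_union_le S3 S4
  have := hc (fun a : ℕ × ℕ => ((a.1, a.1), (a.2, a.2)))
  have := hc (fun a : ℕ × ℕ => ((a.1, a.2), (a.1, a.2)))
  have := hc (fun a : ℕ × ℕ => ((a.1, 2 * a.1 - a.2), (a.2, a.1)))
  have := hc (fun a : ℕ × ℕ => ((a.1, a.2), (a.2, 2 * a.2 - a.1)))
  simp only [S1, S2, S3, S4] at *
  omega

/-- the product of the two periodic functions of a pair of primes -/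
noncomputable def bb (c : ℕ → ℕ → ℝ) (h : ℕ) (p : ℕ × ℕ) (t : ℤ) : ℝ :=
  cg p.1 (c p.1) t * cg p.2 (c p.2) (t - p.1 * h)

lemma bb_abs (c : ℕ → ℕ → ℝ) (hc : ∀ q r, |c q r| ≤ 1) (h : ℕ) (p : ℕ × ℕ) (h1 : 0 < p.1)
    (h2 : 0 < p.2) (t : ℤ) : |bb c h p t| ≤ 4 := by
  unfold bb
  rw [abs_mul]
  have e1 := cg_abs p.1 h1 (c p.1) (hc p.1) t
  have e2 := cg_abs p.2 h2 (c p.2) (hc p.2) (t - p.1 * h)
  nlinarith [abs_nonneg (cg p.1 (c p.1) t), abs_nonneg (cg p.2 (c p.2) (t - p.1 * h))]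

lemma quad (Y : ℕ) (c : ℕ → ℕ → ℝ) (hc : ∀ q r, |c q r| ≤ 1) (h T : ℕ)
    (v : (ℕ × ℕ) × (ℕ × ℕ)) (h1 : v.1.1.Prime ∧ v.1.1 ≤ Y) (h2 : v.1.2.Prime ∧ v.1.2 ≤ Y)
    (h3 : v.2.1.Prime ∧ v.2.1 ≤ Y) (h4 : v.2.2.Prime ∧ v.2.2 ≤ Y) (hd : Dis v) :
    ∑ t ∈ range T, bb c h v.1 t * bb c h v.2 t ≤ (Y : ℝ) ^ 4 * 16 := by
  obtain ⟨⟨a, b⟩, ⟨d, e⟩⟩ := v
  obtain ⟨n1, n2, n3, n4, n5, n6⟩ := hd
  simp only at h1 h2 h3 h4 n1 n2 n3 n4 n5 n6 ⊢
  set G : ℤ → ℝ := fun t => cg b (c b) (t - a * h) * (cg d (c d) t * cg e (c e) (t - d * h))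
    with hG
  have hper : ∀ (q k : ℕ) (s t : ℤ), cg q (c q) (t + ((q * k : ℕ) : ℤ) - s) =
      cg q (c q) (t - s) := by
    intro q k s t
    have := cg_per q (c q) (t - s) k
    rw [← this]
    congr 1
    push_cast
    ring
  have hGp : ∀ t, G (t + ((b * (d * e) : ℕ) : ℤ)) = G t := by
    intro t
    simp only [hG]
    have e1 := hper b (d * e) (a * h) t
    have e2 := hper d (b * e) 0 t
    have e3 := hper e (b * d) (d * h) t
    have r1 : d * (b * e) = b * (d * e) := by ring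
    have r2 : e * (b * d) = b * (d * e) := by ring
    rw [r1] at e2
    rw [r2] at e3
    simp only [sub_zero] at e2
    rw [e1, e2, e3]
  have hco : Nat.Coprime a (b * (d * e)) := by
    apply Nat.Coprime.mul_right
    · exact (Nat.coprime_primes h1.1 h2.1).2 n1
    apply Nat.Coprime.mul_right
    · exact (Nat.coprime_primes h1.1 h3.1).2 n2
    · exact (Nat.coprime_primes h1.1 h4.1).2 n3
  have hF : ∀ t, cg a (c a) (t + (a : ℤ)) = cg a (c a) t := by
    intro t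
    have := cg_per a (c a) t 1
    rwa [one_mul] at this
  have hz := per_zero a (b * (d * e)) h1.1.pos hco (cg a (c a)) G hF
    (cg_sum a h1.1.pos (c a)) hGp
  have hHp : ∀ t, cg a (c a) (t + ((a * (b * (d * e)) : ℕ) : ℤ)) *
      G (t + ((a * (b * (d * e)) : ℕ) : ℤ)) = cg a (c a) t * G t := by
    intro t
    congr 1
    · have := cg_per a (c a) t (b * (d * e) : ℕ)
      rw [← this]
      congr 1
      push_cast
      ring
    · have := per_nat G ((b * (d * e) : ℕ) : ℤ) hGp t a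
      rw [← this]
      congr 1
  have hb : ∀ t, |cg a (c a) t * G t| ≤ 16 := by
    intro t
    have e1 := cg_abs a h1.1.pos (c a) (hc a) t
    have e2 := cg_abs b h2.1.pos (c b) (hc b) (t - a * h)
    have e3 := cg_abs d h3.1.pos (c d) (hc d) t
    have e4 := cg_abs e h4.1.pos (c e) (hc e) (t - d * h)
    simp only [hG, abs_mul]
    calc |cg a (c a) t| * (|cg b (c b) (t - a * h)| * (|cg d (c d) t| *
          |cg e (c e) (t - d * h)|)) ≤ 2 * (2 * (2 * 2)) := by gcongr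
      _ = 16 := by norm_num
  have hP : 0 < a * (b * (d * e)) :=
    Nat.mul_pos h1.1.pos (Nat.mul_pos h2.1.pos (Nat.mul_pos h3.1.pos h4.1.pos))
  have hr := rest (fun t => cg a (c a) t * G t) (a * (b * (d * e))) hP 16 hHp hz hb T
  have hle : ((a * (b * (d * e)) : ℕ) : ℝ) ≤ (Y : ℝ) ^ 4 := by
    have : a * (b * (d * e)) ≤ Y * (Y * (Y * Y)) :=
      Nat.mul_le_mul h1.2 (Nat.mul_le_mul h2.2 (Nat.mul_le_mul h3.2 h4.2))
    calc ((a * (b * (d * e)) : ℕ) : ℝ) ≤ ((Y * (Y * (Y * Y)) : ℕ) : ℝ) := by exact_mod_cast this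
      _ = (Y : ℝ) ^ 4 := by push_cast; ring
  calc ∑ t ∈ range T, bb c h (a, b) t * bb c h (d, e) t
      = ∑ t ∈ range T, cg a (c a) t * G t := by
        apply Finset.sum_congr rfl
        intro t _
        simp only [bb, hG]
        ring
    _ ≤ |∑ t ∈ range T, cg a (c a) t * G t| := le_abs_self _
    _ ≤ ((a * (b * (d * e)) : ℕ) : ℝ) * 16 := hr
    _ ≤ (Y : ℝ) ^ 4 * 16 := by gcongr

open Classical in
/-- the fourth moment -/
lemma fourth (Q : Finset ℕ) (Y : ℕ) (hQ : ∀ q ∈ Q, q.Prime ∧ q ≤ Y) (c : ℕ → ℕ → ℝ)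
    (hc : ∀ q r, |c q r| ≤ 1) (h T : ℕ) :
    ∑ t ∈ range T, ∑ d ∈ Icc (-(Y : ℤ)) Y,
      (∑ p ∈ Q ×ˢ Q, if (p.2 : ℤ) - p.1 = d then bb c h p t else 0) ^ 2 ≤
      (Q.card : ℝ) ^ 4 * ((Y : ℝ) ^ 4 * 16) + 64 * (Q.card : ℝ) ^ 2 * T := by
  have hD : ∀ p ∈ Q ×ˢ Q, (p.2 : ℤ) - p.1 ∈ Icc (-(Y : ℤ)) Y := by
    intro p hp
    rw [mem_product] at hp
    have e1 := (hQ _ hp.1).2
    have e2 := (hQ _ hp.2).2
    rw [mem_Icc]
    constructor <;> omega
  have h1 : ∀ t : ℤ, ∑ d ∈ Icc (-(Y : ℤ)) Y,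
      (∑ p ∈ Q ×ˢ Q, if (p.2 : ℤ) - p.1 = d then bb c h p t else 0) ^ 2 =
      ∑ v ∈ (Q ×ˢ Q) ×ˢ (Q ×ˢ Q), if Eqd v then bb c h v.1 t * bb c h v.2 t else 0 := by
    intro t
    have : ∀ d ∈ Icc (-(Y : ℤ)) Y,
        (∑ p ∈ Q ×ˢ Q, if (p.2 : ℤ) - p.1 = d then bb c h p t else 0) ^ 2 =
        ∑ v ∈ (Q ×ˢ Q) ×ˢ (Q ×ˢ Q), if (v.1.2 : ℤ) - v.1.1 = d ∧ (v.2.2 : ℤ) - v.2.1 = d then
          bb c h v.1 t * bb c h v.2 t else 0 := by
      intro d _
      rw [sq, Finset.sum_mul_sum, ← Finset.sum_product']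
      apply Finset.sum_congr rfl
      intro v _
      by_cases e1 : (v.1.2 : ℤ) - v.1.1 = d <;> by_cases e2 : (v.2.2 : ℤ) - v.2.1 = d <;>
        simp [e1, e2]
    rw [Finset.sum_congr rfl this, Finset.sum_comm]
    apply Finset.sum_congr rfl
    intro v hv
    rw [mem_product] at hv
    by_cases he : Eqd v
    · rw [if_pos he, Finset.sum_eq_single ((v.1.2 : ℤ) - v.1.1)]
      · rw [if_pos ⟨rfl, he.symm⟩]
      · intro d _ hne
        rw [if_neg]
        intro h2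
        exact hne h2.1.symm
      · intro hn
        exact absurd (hD v.1 hv.1) hn
    · rw [if_neg he]
      apply Finset.sum_eq_zero
      intro d _
      rw [if_neg]
      intro h2
      exact he (h2.1.trans h2.2.symm)
  rw [Finset.sum_congr rfl (fun (t : ℕ) _ => h1 (t : ℤ)), Finset.sum_comm]
  have h2 : ∀ v ∈ (Q ×ˢ Q) ×ˢ (Q ×ˢ Q),
      ∑ t ∈ range T, (if Eqd v then bb c h v.1 t * bb c h v.2 t else 0) ≤
      (Y : ℝ) ^ 4 * 16 + (if Eqd v ∧ ¬ Dis v then 16 * (T : ℝ) else 0) := by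
    intro v hv
    rw [mem_product, mem_product, mem_product] at hv
    have p1 := hQ _ hv.1.1
    have p2 := hQ _ hv.1.2
    have p3 := hQ _ hv.2.1
    have p4 := hQ _ hv.2.2
    have hY : (0 : ℝ) ≤ (Y : ℝ) ^ 4 * 16 := by positivity
    by_cases he : Eqd v
    · simp only [he, if_true, true_and]
      by_cases hd : Dis v
      · simp only [hd, not_true, if_false, add_zero]
        exact quad Y c hc h T v p1 p2 p3 p4 hd
      · simp only [hd, not_false_iff, if_true]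
        have : ∑ t ∈ range T, bb c h v.1 t * bb c h v.2 t ≤ ∑ t ∈ range T, (16 : ℝ) := by
          apply Finset.sum_le_sum
          intro t _
          have e1 := bb_abs c hc h v.1 p1.1.pos p2.1.pos t
          have e2 := bb_abs c hc h v.2 p3.1.pos p4.1.pos t
          calc bb c h v.1 t * bb c h v.2 t ≤ |bb c h v.1 t * bb c h v.2 t| := le_abs_self _
            _ = |bb c h v.1 t| * |bb c h v.2 t| := abs_mul _ _
            _ ≤ 4 * 4 := by gcongr
            _ = 16 := by norm_num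
        simp only [sum_const, card_range, nsmul_eq_mul] at this
        linarith
    · simp only [he, if_false, false_and, Finset.sum_const_zero, add_zero]
      exact hY
  refine (Finset.sum_le_sum h2).trans ?_
  rw [Finset.sum_add_distrib, Finset.sum_const, ← Finset.sum_filter, Finset.sum_const]
  rw [nsmul_eq_mul, nsmul_eq_mul]
  have h3 := count Q
  have h4 : ((((Q ×ˢ Q) ×ˢ (Q ×ˢ Q)).filter (fun v => Eqd v ∧ ¬ Dis v)).card : ℝ) ≤
      4 * (Q.card : ℝ) ^ 2 := by exact_mod_cast h3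
  have h5 : (((Q ×ˢ Q) ×ˢ (Q ×ˢ Q)).card : ℝ) = (Q.card : ℝ) ^ 4 := by
    rw [card_product, card_product]
    push_cast
    ring
  rw [h5]
  have h6 := mul_le_mul_of_nonneg_right h4 (by positivity : (0 : ℝ) ≤ 16 * (T : ℝ))
  linarith

open Classical in
lemma main (Q : Finset ℕ) (Y : ℕ) (hQ : ∀ q ∈ Q, q.Prime ∧ q ≤ Y) (f g : ℤ → ℝ)
    (hf : ∀ t, |f t| ≤ 1) (hg : ∀ t, |g t| ≤ 1) (c : ℕ → ℕ → ℝ)
    (hc : ∀ q r, |c q r| ≤ 1) (h T : ℕ) :
    (∑ t ∈ range T, f t * ∑ q ∈ Q, g (t + q * h) * cg q (c q) t) ^ 2 ≤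
      T * (Real.sqrt (T * (2 * Y + 1) * ((Q.card : ℝ) ^ 4 * ((Y : ℝ) ^ 4 * 16) +
        64 * (Q.card : ℝ) ^ 2 * T)) + 8 * (Q.card : ℝ) ^ 2 * (Y * h)) := by
  set u : ℕ → ℤ → ℝ := fun q t => g (t + q * h) * cg q (c q) t with hu
  have hua : ∀ q ∈ Q, ∀ t, |u q t| ≤ 2 := by
    intro q hq t
    simp only [hu, abs_mul]
    have e1 := cg_abs q (hQ q hq).1.pos (c q) (hc q) t
    have e2 := hg (t + q * h)
    nlinarith [abs_nonneg (g (t + q * h)), abs_nonneg (cg q (c q) t)]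
  -- step A
  have hA : (∑ t ∈ range T, f t * ∑ q ∈ Q, u q t) ^ 2 ≤
      T * ∑ t ∈ range T, (∑ q ∈ Q, u q t) ^ 2 := by
    refine (Finset.sum_mul_sq_le_sq_mul_sq _ _ _).trans ?_
    apply mul_le_mul_of_nonneg_right _ (Finset.sum_nonneg (fun _ _ => sq_nonneg _))
    calc ∑ t ∈ range T, f (t : ℤ) ^ 2 ≤ ∑ t ∈ range T, (1 : ℝ) := by
          apply Finset.sum_le_sum
          intro t _
          exact (sq_le_one_iff_abs_le_one _).2 (hf t)
      _ = T := by simp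
  refine hA.trans (mul_le_mul_of_nonneg_left ?_ (Nat.cast_nonneg T))
  -- step B
  have hB : ∑ t ∈ range T, (∑ q ∈ Q, u q t) ^ 2 ≤
      ∑ t ∈ range T, ∑ p ∈ Q ×ˢ Q, g t * g (t + ((p.2 : ℤ) - p.1) * h) * bb c h p t +
        8 * (Q.card : ℝ) ^ 2 * (Y * h) := by
    have e1 : ∑ t ∈ range T, (∑ q ∈ Q, u q t) ^ 2 =
        ∑ p ∈ Q ×ˢ Q, ∑ t ∈ range T, u p.1 t * u p.2 t := by
      rw [Finset.sum_comm]
      apply Finset.sum_congr rfl
      intro t _
      rw [sq, Finset.sum_mul_sum, ← Finset.sum_product']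
    rw [e1, Finset.sum_comm (s := range T)]
    have e2 : ∀ p ∈ Q ×ˢ Q, ∑ t ∈ range T, u p.1 t * u p.2 t ≤
        ∑ t ∈ range T, g t * g (t + ((p.2 : ℤ) - p.1) * h) * bb c h p t + 8 * (Y * h) := by
      intro p hp
      rw [mem_product] at hp
      have b1 : ∀ t, |u p.1 t * u p.2 t| ≤ 4 := by
        intro t
        rw [abs_mul]
        have := hua _ hp.1 t
        have := hua _ hp.2 t
        nlinarith [abs_nonneg (u p.1 t), abs_nonneg (u p.2 t)]
      have e3 := shift (fun t => u p.1 t * u p.2 t) 4 b1 T (p.1 * h)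
      refine e3.trans ?_
      have e4 : ∀ t : ℤ, u p.1 (t - ((p.1 * h : ℕ) : ℤ)) * u p.2 (t - ((p.1 * h : ℕ) : ℤ)) =
          g t * g (t + ((p.2 : ℤ) - p.1) * h) * bb c h p t := by
        intro t
        simp only [hu, bb]
        have a1 : t - ((p.1 * h : ℕ) : ℤ) + p.1 * h = t := by push_cast; ring
        have a2 : t - ((p.1 * h : ℕ) : ℤ) + p.2 * h = t + ((p.2 : ℤ) - p.1) * h := by
          push_cast; ring
        have a3 : cg p.1 (c p.1) (t - ((p.1 * h : ℕ) : ℤ)) = cg p.1 (c p.1) t := by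
          have := cg_per p.1 (c p.1) t (-h)
          rw [← this]
          congr 1
          push_cast
          ring
        have a4 : t - ((p.1 * h : ℕ) : ℤ) = t - p.1 * h := by push_cast; ring
        rw [a1, a2, a3, a4]
        ring
      simp only [e4]
      have e5 : ((p.1 * h : ℕ) : ℝ) ≤ Y * h := by
        push_cast
        apply mul_le_mul_of_nonneg_right _ (Nat.cast_nonneg h)
        exact_mod_cast (hQ _ hp.1).2
      linarith
    refine (Finset.sum_le_sum e2).trans ?_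
    rw [Finset.sum_add_distrib, Finset.sum_const, card_product, nsmul_eq_mul]
    push_cast
    apply le_of_eq
    ring
  refine hB.trans (add_le_add_left ?_ _)
  -- step C
  set B : ℕ × ℤ → ℝ := fun x => ∑ p ∈ Q ×ˢ Q,
    if (p.2 : ℤ) - p.1 = x.2 then bb c h p x.1 else 0 with hBd
  have hD : ∀ p ∈ Q ×ˢ Q, (p.2 : ℤ) - p.1 ∈ Icc (-(Y : ℤ)) Y := by
    intro p hp
    rw [mem_product] at hp
    have e1 := (hQ _ hp.1).2
    have e2 := (hQ _ hp.2).2
    rw [mem_Icc]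
    constructor <;> omega
  have hC : ∑ t ∈ range T, ∑ p ∈ Q ×ˢ Q, g t * g (t + ((p.2 : ℤ) - p.1) * h) * bb c h p t ≤
      ∑ x ∈ range T ×ˢ Icc (-(Y : ℤ)) Y, |B x| := by
    rw [Finset.sum_product]
    apply Finset.sum_le_sum
    intro t _
    have e1 : ∑ p ∈ Q ×ˢ Q, g t * g (t + ((p.2 : ℤ) - p.1) * h) * bb c h p t =
        ∑ d ∈ Icc (-(Y : ℤ)) Y, g t * g (t + d * h) * B (t, d) := by
      simp only [hBd, Finset.mul_sum]
      rw [Finset.sum_comm]
      apply Finset.sum_congr rfl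
      intro p hp
      rw [Finset.sum_eq_single ((p.2 : ℤ) - p.1)]
      · simp
      · intro d _ hne
        rw [if_neg (fun h2 => hne h2.symm), mul_zero]
      · intro hn
        exact absurd (hD p hp) hn
    rw [e1]
    apply Finset.sum_le_sum
    intro d _
    calc g t * g (t + d * h) * B (t, d) ≤ |g t * g (t + d * h) * B (t, d)| := le_abs_self _
      _ = |g t| * |g (t + d * h)| * |B (t, d)| := by rw [abs_mul, abs_mul]
      _ ≤ 1 * 1 * |B (t, d)| := by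
          gcongr
          · exact hg _
          · exact hg _
      _ = |B (t, d)| := by ring
  refine hC.trans (Real.le_sqrt_of_sq_le ?_)
  refine (sq_sum_le_card_mul_sum_sq).trans ?_
  have e1 : ((range T ×ˢ Icc (-(Y : ℤ)) Y).card : ℝ) = T * (2 * Y + 1) := by
    rw [card_product, card_range, Int.card_Icc]
    have : ((Y : ℤ) + 1 - -(Y : ℤ)).toNat = 2 * Y + 1 := by omega
    rw [this]
    push_cast
    ring
  rw [e1]
  apply mul_le_mul_of_nonneg_left _ (by positivity)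
  have e2 := fourth Q Y hQ c hc h T
  have e3 : ∑ x ∈ range T ×ˢ Icc (-(Y : ℤ)) Y, |B x| ^ 2 = ∑ t ∈ range T, ∑ d ∈ Icc (-(Y : ℤ)) Y,
      (∑ p ∈ Q ×ˢ Q, if (p.2 : ℤ) - p.1 = d then bb c h p t else 0) ^ 2 := by
    rw [Finset.sum_product]
    simp only [sq_abs, hBd]
  rw [e3]
  exact e2

/-- The large sieve for two points at a distance `q h`. -/
theorem ls2_raw (m h T : ℕ) (f g : ℤ → ℝ) (hf : ∀ t, |f t| ≤ 1) (hg : ∀ t, |g t| ≤ 1)
    (hT : 2 ^ (8 * m + 20) * (h + 1) ≤ T) :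
    (∑ q ∈ oct m, (∑ r ∈ range q,
      |(∑ t ∈ range T, f t * g (t + q * h) * DR q (r + t)) / T|) / q) ^ 4 ≤ 2000 * 8 ^ m := by
  set A : ℕ → ℕ → ℝ := fun q r => (∑ t ∈ range T, f t * g (t + q * h) * DR q (r + t)) / T with hA
  set c : ℕ → ℕ → ℝ := fun q r => if 0 ≤ A q r then 1 else -1 with hc
  have hc1 : ∀ q r, |c q r| ≤ 1 := by
    intro q r
    simp only [hc]
    split_ifs <;> simp
  have hcA : ∀ q r, |A q r| = c q r * A q r := by
    intro q r
    simp only [hc]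
    split_ifs with h1
    · rw [abs_of_nonneg h1, one_mul]
    · rw [abs_of_neg (not_le.1 h1)]; ring
  have hT0 : 0 < T := lt_of_lt_of_le (by positivity) hT
  have hTr : (0 : ℝ) < T := by exact_mod_cast hT0
  have hQ : ∀ q ∈ oct m, q.Prime ∧ q ≤ 2 ^ (m + 1) := by
    intro q hq
    unfold oct at hq
    rw [mem_filter, mem_Ioc] at hq
    exact ⟨hq.2, hq.1.2⟩
  have hS : ∑ q ∈ oct m, (∑ r ∈ range q, |A q r|) / q =
      (∑ t ∈ range T, f t * ∑ q ∈ oct m, g (t + q * h) * cg q (c q) t) / T := by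
    have e1 : ∀ q ∈ oct m, (∑ r ∈ range q, |A q r|) / q =
        (∑ t ∈ range T, f t * (g (t + q * h) * cg q (c q) t)) / T := by
      intro q hq
      have hq0 : (q : ℝ) ≠ 0 := by exact_mod_cast (hQ q hq).1.pos.ne'
      have e2 : ∀ r ∈ range q, |A q r| =
          (∑ t ∈ range T, f t * g (t + q * h) * (c q r * DZ q (r + t))) / T := by
        intro r _
        rw [hcA]
        simp only [hA]
        rw [mul_div_assoc', Finset.mul_sum]
        congr 1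
        apply Finset.sum_congr rfl
        intro t _
        rw [DR_eq]
        push_cast
        ring
      rw [Finset.sum_congr rfl e2, ← Finset.sum_div, Finset.sum_comm, div_div, mul_comm (T : ℝ),
        ← div_div]
      congr 1
      rw [Finset.sum_div]
      apply Finset.sum_congr rfl
      intro t _
      rw [← Finset.mul_sum]
      unfold cg
      ring
    rw [Finset.sum_congr rfl e1, ← Finset.sum_div, Finset.sum_comm]
    congr 1
    apply Finset.sum_congr rfl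
    intro t _
    rw [Finset.mul_sum]
  have hM := main (oct m) (2 ^ (m + 1)) hQ f g hf hg c hc1 h T
  set n : ℝ := ((oct m).card : ℝ) with hn
  have hn0 : 0 ≤ n := Nat.cast_nonneg _
  have hnY : n ≤ 2 ^ (m + 1) := by
    have : (oct m).card ≤ 2 ^ (m + 1) := by
      have h1 : oct m ⊆ Ioc 0 (2 ^ (m + 1)) := by
        intro q hq
        exact mem_Ioc.2 ⟨(hQ q hq).1.pos, (hQ q hq).2⟩
      have := Finset.card_le_card h1
      simpa using this
    rw [hn]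
    exact_mod_cast this
  set Y : ℝ := (2 : ℝ) ^ (m + 1) with hY
  have hYc : (((2 ^ (m + 1) : ℕ)) : ℝ) = Y := by rw [hY]; push_cast; rfl
  have hY1 : 1 ≤ Y := one_le_pow₀ (by norm_num)
  have hTY : Y ^ 8 * 2 ^ 12 * (h + 1) ≤ T := by
    have h1 : Y ^ 8 * 2 ^ 12 = (2 : ℝ) ^ (8 * m + 20) := by
      rw [hY, ← pow_mul, ← pow_add]
      congr 1
      ring
    rw [h1]
    exact_mod_cast hT
  have hh : (0 : ℝ) ≤ h := Nat.cast_nonneg h
  rw [hYc] at hM
  have h1 : n ^ 4 * (Y ^ 4 * 16) ≤ T := by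
    calc n ^ 4 * (Y ^ 4 * 16) ≤ Y ^ 4 * (Y ^ 4 * 16) := by gcongr
      _ = Y ^ 8 * 16 * 1 := by ring
      _ ≤ Y ^ 8 * 2 ^ 12 * (h + 1) := by
          gcongr
          · norm_num
          · linarith
      _ ≤ T := hTY
  have h2 : 8 * n ^ 2 * (Y * h) ≤ T := by
    calc 8 * n ^ 2 * (Y * h) ≤ 8 * Y ^ 2 * (Y * h) := by gcongr
      _ = Y ^ 3 * 8 * h := by ring
      _ ≤ Y ^ 8 * 2 ^ 12 * (h + 1) := by
          gcongr
          · norm_num
          · norm_num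
          · linarith
      _ ≤ T := hTY
  have h3 : Real.sqrt (T * (2 * Y + 1) * (n ^ 4 * (Y ^ 4 * 16) + 64 * n ^ 2 * T)) ≤
      Real.sqrt (195 * Y ^ 3) * T := by
    rw [← Real.sqrt_sq hTr.le (x := (T : ℝ)), ← Real.sqrt_mul (by positivity)]
    apply Real.sqrt_le_sqrt
    rw [Real.sqrt_sq hTr.le]
    have h4 : n ^ 4 * (Y ^ 4 * 16) + 64 * n ^ 2 * T ≤ 65 * Y ^ 2 * T := by
      have : n ^ 2 ≤ Y ^ 2 := by gcongr
      have : 1 ≤ Y ^ 2 := one_le_pow₀ hY1
      nlinarith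
    calc T * (2 * Y + 1) * (n ^ 4 * (Y ^ 4 * 16) + 64 * n ^ 2 * T)
        ≤ T * (2 * Y + Y) * (65 * Y ^ 2 * T) := by gcongr
      _ = 195 * Y ^ 3 * T ^ 2 := by ring
  have h5 : (∑ t ∈ range T, f t * ∑ q ∈ oct m, g (t + q * h) * cg q (c q) t) ^ 2 ≤
      (Real.sqrt (195 * Y ^ 3) + 1) * T ^ 2 := by
    refine hM.trans ?_
    calc T * (Real.sqrt (T * (2 * Y + 1) * (n ^ 4 * (Y ^ 4 * 16) + 64 * n ^ 2 * T)) +
          8 * n ^ 2 * (Y * h)) ≤ T * (Real.sqrt (195 * Y ^ 3) * T + T) := by gcongr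
      _ = (Real.sqrt (195 * Y ^ 3) + 1) * T ^ 2 := by ring
  have h6 : (∑ q ∈ oct m, (∑ r ∈ range q, |A q r|) / q) ^ 2 ≤ Real.sqrt (195 * Y ^ 3) + 1 := by
    rw [hS, div_pow, div_le_iff₀ (by positivity)]
    exact h5
  have h7 : (Real.sqrt (195 * Y ^ 3) + 1) ^ 2 ≤ 2000 * 8 ^ m := by
    have e1 : Y ^ 3 = 8 * 8 ^ m := by
      rw [hY, ← pow_mul]
      have : (m + 1) * 3 = 3 + 3 * m := by ring
      rw [this, pow_add, pow_mul]
      norm_num
    have e2 : (1 : ℝ) ≤ Real.sqrt (195 * Y ^ 3) := by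
      rw [Real.one_le_sqrt]
      have : 1 ≤ Y ^ 3 := one_le_pow₀ hY1
      linarith
    have e3 : Real.sqrt (195 * Y ^ 3) ^ 2 = 195 * Y ^ 3 := Real.sq_sqrt (by positivity)
    have e4 : (1 : ℝ) ≤ 8 ^ m := one_le_pow₀ (by norm_num)
    have e5 : Real.sqrt (195 * Y ^ 3) ≤ 195 * Y ^ 3 / 20 + 5 + 0 := by
      nlinarith [sq_nonneg (Real.sqrt (195 * Y ^ 3) - 10)]
    rw [e1] at e3 e5
    have e6 : (Real.sqrt (195 * Y ^ 3) + 1) ^ 2 = Real.sqrt (195 * Y ^ 3) ^ 2 +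
        2 * Real.sqrt (195 * Y ^ 3) + 1 := by ring
    rw [e1] at e6 ⊢
    rw [e6, e3]
    linarith
  calc (∑ q ∈ oct m, (∑ r ∈ range q, |A q r|) / q) ^ 4
      = ((∑ q ∈ oct m, (∑ r ∈ range q, |A q r|) / q) ^ 2) ^ 2 := by ring
    _ ≤ (Real.sqrt (195 * Y ^ 3) + 1) ^ 2 := by gcongr
    _ ≤ 2000 * 8 ^ m := h7

theorem pf_LS2 : Pool.Agent.H87.QP.T_LS2 := by
  refine ⟨7, by norm_num, ?_⟩
  intro m h T f g hf hg hT
  have h1 := ls2_raw m h T f g hf hg hT
  set S := ∑ q ∈ oct m, (∑ r ∈ range q,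
      |(∑ t ∈ range T, f t * g (t + q * h) * DR q (r + t)) / T|) / q with hS
  have h2 : (7 * (2 : ℝ) ^ (3 * (m : ℝ) / 4)) ^ 4 = 2401 * 8 ^ m := by
    rw [mul_pow, ← Real.rpow_natCast ((2 : ℝ) ^ (3 * (m : ℝ) / 4)) 4,
      ← Real.rpow_mul (by norm_num)]
    have e : 3 * (m : ℝ) / 4 * ((4 : ℕ) : ℝ) = ((3 * m : ℕ) : ℝ) := by push_cast; ring
    rw [e, Real.rpow_natCast, pow_mul]
    norm_num
  have h3 : (0 : ℝ) < 8 ^ m := by positivity
  refine le_of_not_gt fun hlt => ?_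
  have h4 : (7 * (2 : ℝ) ^ (3 * (m : ℝ) / 4)) ^ 4 < S ^ 4 := by
    apply pow_lt_pow_left₀ hlt (by positivity) (by norm_num)
  rw [h2] at h4
  linarith

end Pool.Agent.H6.QP
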