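import Pool.Agent.H87.QP.Targets2

/-!
# MP_c59857_nt, theorem (RZ): the composition
-/

set_option autoImplicit false

namespace Pool.Agent.H6.QP

open Finset Pool.Agent.H18.MR Pool.Agent.H93.DE Pool.Agent.H6.N4D Pool.Agent.H93
  Pool.Agent.H93.ES Pool.Agent.H28.NW Pool.Agent.H87.QP

/-- the mean square distance on the window `(n, n + M]` -/
noncomputable def dst (lam : ℕ → ℝ) (R M n : ℕ) (b : ℕ → ℂ) (β : ℕ → ℝ) : ℝ :=
  (∑ x ∈ Ioc n (n + M), ‖(lam x : ℂ) - ∑ r ∈ range R, b r * ee (β r * x)‖ ^ 2) / (M : ℝ)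

lemma dst_nonneg (lam : ℕ → ℝ) (R M n : ℕ) (b : ℕ → ℂ) (β : ℕ → ℝ) : 0 ≤ dst lam R M n b β := by
  unfold dst
  positivity

lemma dst_zero (lam : ℕ → ℝ) (hl : ∀ n, lam n = 1 ∨ lam n = -1) (R M n : ℕ) (β : ℕ → ℝ) :
    dst lam R M n (fun _ => 0) β ≤ 1 := by
  unfold dst
  have h1 : ∀ x ∈ Ioc n (n + M), ‖(lam x : ℂ) - ∑ r ∈ range R, (0 : ℂ) * ee (β r * x)‖ ^ 2 = 1 := by
    intro x _
    simp only [zero_mul, sum_const_zero, sub_zero]
    rcases hl x with h | h <;> simp [h]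
  rw [sum_congr rfl h1]
  simp only [sum_const, Nat.card_Ioc, Nat.add_sub_cancel_left, nsmul_eq_mul, mul_one]
  exact div_self_le_one _

/-- choice of the start of the short windows -/
lemma pick (lam : ℕ → ℝ) (hl : ∀ n, lam n = 1 ∨ lam n = -1) (R M W : ℕ) (hW : 0 < W) (X : Wn)
    (b : ℕ → ℕ → ℕ → ℂ) (β : ℕ → ℕ → ℕ → ℝ) (hb : ∀ n t r, ‖b n t r‖ ≤ 1) :
    ∃ (b' : ℕ → ℕ → ℂ) (β' : ℕ → ℕ → ℝ), (∀ n r, ‖b' n r‖ ≤ 1) ∧
      wlg X (fun n => dst lam R M n (b' n) (β' n)) ≤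
        wlg X (fun n => (∑ t ∈ range W, dst lam R M (n + 1 + t) (b n t) (β n t)) / W) +
          3 * (1 + Real.log W) := by
  classical
  set e : ℕ → ℕ → ℝ := fun n t => min 1 (dst lam R M (n + 1 + t) (b n t) (β n t)) with he
  set f : ℕ → ℕ → ℝ := fun t n => if 1 + t ≤ n then e (n - (1 + t)) t else 1 with hf
  have he0 : ∀ n t, 0 ≤ e n t := fun n t => le_min zero_le_one (dst_nonneg _ _ _ _ _ _)
  have he1 : ∀ n t, e n t ≤ 1 := fun n t => min_le_left _ _
  have hf1 : ∀ t n, |f t n| ≤ 1 := by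
    intro t n
    simp only [hf]
    split_ifs
    · rw [abs_of_nonneg (he0 _ _)]; exact he1 _ _
    · simp
  have hWr : (0 : ℝ) < W := by exact_mod_cast hW
  have hex : ∀ n : ℕ, ∃ (b' : ℕ → ℂ) (β' : ℕ → ℝ), (∀ r, ‖b' r‖ ≤ 1) ∧
      dst lam R M n b' β' ≤ (∑ t ∈ range W, f t n) / W := by
    intro n
    obtain ⟨t, ht, hle⟩ : ∃ t ∈ range W, f t n ≤ (∑ t ∈ range W, f t n) / W := by
      apply Finset.exists_le_of_sum_le (Finset.nonempty_range_iff.2 hW.ne')
      rw [sum_const, card_range, nsmul_eq_mul, mul_div_cancel₀ _ hWr.ne']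
    by_cases h1 : 1 + t ≤ n
    · by_cases h2 : dst lam R M n (b (n - (1 + t)) t) (β (n - (1 + t)) t) ≤ 1
      · refine ⟨b (n - (1 + t)) t, β (n - (1 + t)) t, hb _ _, le_trans ?_ hle⟩
        simp only [hf, he]
        rw [if_pos h1]
        have h3 : n - (1 + t) + 1 + t = n := by omega
        rw [h3]
        exact le_min h2 le_rfl
      · refine ⟨fun _ => 0, fun _ => 0, by simp, (dst_zero lam hl R M n _).trans (le_trans ?_ hle)⟩
        simp only [hf, he]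
        rw [if_pos h1]
        have h3 : n - (1 + t) + 1 + t = n := by omega
        rw [h3]
        exact le_min le_rfl (not_le.1 h2).le
    · refine ⟨fun _ => 0, fun _ => 0, by simp, (dst_zero lam hl R M n _).trans (le_trans ?_ hle)⟩
      simp only [hf]
      rw [if_neg h1]
  choose b' β' hb' hd using hex
  refine ⟨b', β', hb', (wlg_mono fun n _ => hd n).trans ?_⟩
  have hsh : ∀ t ∈ range W, wlg X (f t) ≤ wlg X (fun n => e n t) + 3 * EB.hs W := by
    intro t ht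
    have h1 := wlg_shift X (1 + t) (f t) (hf1 t)
    have h2 : (fun n => f t (n + (1 + t))) = fun n => e n t := by
      funext n
      simp only [hf]
      rw [if_pos (by omega), Nat.add_sub_cancel]
    rw [h2] at h1
    have h3 := (abs_le.1 h1).1
    have h4 : EB.hs (1 + t) ≤ EB.hs W := EB.hs_mono (by rw [mem_range] at ht; omega)
    linarith
  have hsw := EB.hs_le W
  have e1 : wlg X (fun n => (∑ t ∈ range W, f t n) / W) = (∑ t ∈ range W, wlg X (f t)) / W := by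
    have : (fun n => (∑ t ∈ range W, f t n) / (W : ℝ)) =
        fun n => (1 / (W : ℝ)) * ∑ t ∈ range W, f t n := by
      funext n; ring
    rw [this, wlg_mul, wlg_sum]
    ring
  have e2 : wlg X (fun n => (∑ t ∈ range W, e n t) / W) =
      (∑ t ∈ range W, wlg X (fun n => e n t)) / W := by
    have : (fun n => (∑ t ∈ range W, e n t) / (W : ℝ)) =
        fun n => (1 / (W : ℝ)) * ∑ t ∈ range W, (fun t n => e n t) t n := by
      funext n; ring
    rw [this, wlg_mul, wlg_sum]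
    ring
  have e3 : wlg X (fun n => (∑ t ∈ range W, e n t) / W) ≤
      wlg X (fun n => (∑ t ∈ range W, dst lam R M (n + 1 + t) (b n t) (β n t)) / W) := by
    apply wlg_mono
    intro n _
    apply div_le_div_of_nonneg_right _ hWr.le
    exact sum_le_sum fun t _ => min_le_right _ _
  rw [e1]
  calc (∑ t ∈ range W, wlg X (f t)) / W
      ≤ (∑ t ∈ range W, (wlg X (fun n => e n t) + 3 * EB.hs W)) / W :=
        div_le_div_of_nonneg_right (sum_le_sum hsh) hWr.le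
    _ = (∑ t ∈ range W, wlg X (fun n => e n t)) / W + 3 * EB.hs W := by
        rw [sum_add_distrib, sum_const, card_range, nsmul_eq_mul]
        field_simp
    _ ≤ _ := by
        rw [← e2]
        linarith

theorem pf_RZL (hG : Pool.Agent.H3.GW.W_GH0) (hF : T_RZB) (hS : T_SFO) (hM : T_LPS)
    (hB : T_PSB) (hP : Pool.Agent.H93.DE.T_PIL) : T_RZL := by
  obtain ⟨c₀, K₀, hc₀, hK₀, hG⟩ := hG
  obtain ⟨cP, mP, hcP, hP⟩ := hP
  set c₁ : ℝ := min c₀ 1 with hc₁
  have hc₁0 : 0 < c₁ := lt_min hc₀ one_pos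
  have hc₁1 : c₁ ≤ 1 := min_le_right _ _
  have hc₁c : c₁ ≤ c₀ := min_le_left _ _
  set c : ℝ := c₁ / 400 with hc
  have hc0 : 0 < c := by positivity
  refine ⟨c, ⌈80 / c⌉₊ + 1, hc0, ?_⟩
  intro H
  obtain ⟨R, B, m₀, hB1, hF⟩ := hF H (c₁ / 8) (by positivity)
  obtain ⟨H₀, hG⟩ := hG R
  set m₁ : ℕ := max m₀ (max H₀ (max mP 1)) with hm₁
  obtain ⟨Ls, W₁, X₀, hLs, hS⟩ := hS H m₁ (2 * c) (by positivity)
  -- lower bound for the logarithmic length
  set D : ℝ := 2 * ((H : ℝ) + 1) ^ 2 * Ls with hD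
  have hD0 : 0 ≤ D := by positivity
  set X₁ : ℝ := max (max X₀ 1) (max (K₀ * Real.log (B * 2 ^ W₁)) (24 / c₁ * (1 + W₁))) with hX₁
  set L₀ : ℕ := max (max Ls 3) (max ⌈8 * D / c⌉₊ ⌈Real.exp X₁⌉₊) with hL₀
  refine ⟨L₀, ?_⟩
  intro X L lam hL hK hLio a ha
  by_contra hcon
  rw [not_lt] at hcon
  have hLLs : Ls ≤ L := ((le_max_left _ _).trans (le_max_left _ _)).trans hL
  have hL3 : 3 ≤ L := ((le_max_right _ _).trans (le_max_left _ _)).trans hL
  have hL4 : ⌈8 * D / c⌉₊ ≤ L := ((le_max_left _ _).trans (le_max_right _ _)).trans hL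
  have hL5 : ⌈Real.exp X₁⌉₊ ≤ L := ((le_max_right _ _).trans (le_max_right _ _)).trans hL
  have hLr : (3 : ℝ) ≤ L := by exact_mod_cast hL3
  have hLpos : (0 : ℝ) < L := by linarith
  have hlog1 : 1 ≤ Real.log L := by
    rw [Real.le_log_iff_exp_le hLpos]
    have := Real.exp_one_lt_d9
    linarith
  have hlogX : X₁ ≤ Real.log L := by
    rw [Real.le_log_iff_exp_le hLpos]
    exact (Nat.le_ceil _).trans (by exact_mod_cast hL5)
  have hK' : (80 / c + 1) * Real.log L ≤ X.L := by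
    refine le_trans (mul_le_mul_of_nonneg_right ?_ (by linarith)) hK
    push_cast
    have := Nat.le_ceil (80 / c)
    linarith
  have h80 : 0 < 80 / c := by positivity
  have hXL : Real.log L ≤ X.L := by nlinarith
  have hXX : X₁ ≤ X.L := hlogX.trans hXL
  have hX0 : X₀ ≤ X.L := ((le_max_left _ _).trans (le_max_left _ _)).trans hXX
  have hX1 : 1 ≤ X.L := ((le_max_right _ _).trans (le_max_left _ _)).trans hXX
  have hX2 : K₀ * Real.log (B * 2 ^ W₁) ≤ X.L :=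
    ((le_max_left _ _).trans (le_max_right _ _)).trans hXX
  have hX3 : 24 / c₁ * (1 + W₁) ≤ X.L := ((le_max_right _ _).trans (le_max_right _ _)).trans hXX
  have hL1 : 1 ≤ L := by omega
  -- the long windows
  have hps1 : wlg X (fun n => ps lam H L 1 n) ≤ c * X.L :=
    (wlg_mono fun n _ => (hB lam H L 1 n hLio.pm hL1).2.2.1 (a n) (ha n)).trans hcon
  -- the windows of length Ls
  have hps2 : wlg X (fun n => ps lam H Ls 1 n) ≤ 2 * c * X.L := by
    have h1 := hM lam H L Ls 1 X hLio.pm hLs hLLs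
    have h2 : 10 * (1 + Real.log L) ≤ c / 4 * X.L := by
      have h3 : 80 / c * Real.log L ≤ X.L := by nlinarith
      have h4 : 20 * Real.log L ≤ c / 4 * X.L := by
        rw [div_mul_eq_mul_div, div_le_iff₀ hc0] at h3
        nlinarith
      linarith
    have h3 : 2 * ((H : ℝ) + 1) ^ 2 * Ls / L * (1 + X.L) ≤ c / 4 * X.L := by
      have h4 : D / L ≤ c / 8 := by
        have h5 : 8 * D / c ≤ L := (Nat.le_ceil _).trans (by exact_mod_cast hL4)
        rw [div_le_iff₀ hc0] at h5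
        rw [div_le_iff₀ hLpos]
        linarith
      calc 2 * ((H : ℝ) + 1) ^ 2 * Ls / L * (1 + X.L) = D / L * (1 + X.L) := by rw [hD]
        _ ≤ c / 8 * (2 * X.L) := by
            apply mul_le_mul h4 (by linarith) (by linarith) (by positivity)
        _ = c / 4 * X.L := by ring
    nlinarith
  obtain ⟨m, w, hm, hmw, hw, hsum⟩ := hS X lam hX0 hLio hps2
  have hm0 : m₀ ≤ m := (le_max_left _ _).trans hm
  have hmH : H₀ ≤ m := ((le_max_left _ _).trans (le_max_right _ _)).trans hm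
  have hmP : mP ≤ m := ((le_max_left _ _).trans ((le_max_right _ _).trans (le_max_right _ _))).trans
    hm
  have hm1 : 1 ≤ m := ((le_max_right _ _).trans ((le_max_right _ _).trans (le_max_right _ _))).trans
    hm
  have hoct : (0 : ℝ) < ((oct m).card : ℝ) := by
    refine lt_of_lt_of_le ?_ (hP m hmP)
    have : (0 : ℝ) < m := by exact_mod_cast hm1
    positivity
  set O : ℝ := ((oct m).card : ℝ) with hO
  -- the filters
  have hcc : ∀ n q : ℕ, ∃ v : ℕ → ℂ, Flt H v ∧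
      fl lam H (2 ^ w) q n v ≤ ps lam H (2 ^ w) q n + c₁ / 64 := fun n q =>
    (hB lam H (2 ^ w) q n hLio.pm Nat.one_le_two_pow).2.2.2 (c₁ / 64) (by positivity)
  choose v hv1 hv2 using hcc
  have hrz : ∀ n : ℕ, ∃ (b : ℕ → ℕ → ℂ) (β : ℕ → ℕ → ℝ), (∀ t r, ‖b t r‖ ≤ 1) ∧
      (∑ t ∈ range (2 ^ w), dst lam R (B * 2 ^ m) (n + 1 + t) (b t) (β t)) / ((2 ^ w : ℕ) : ℝ) ≤
        2 * ((∑ q ∈ oct m, fl lam H (2 ^ w) q n (v n q)) / O) + c₁ / 8 := by
    intro n
    obtain ⟨b, β, hb, h⟩ := hF m w hm0 hmw lam hLio.pm (v n) (fun q => (hv1 n q).2.ge) n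
    refine ⟨b, β, hb, ?_⟩
    unfold dst
    push_cast at h ⊢
    exact h
  choose b β hb hbd using hrz
  have hW : 0 < 2 ^ w := Nat.pow_pos (by norm_num)
  obtain ⟨b', β', hb', hd⟩ := pick lam hLio.pm R (B * 2 ^ m) (2 ^ w) hW X b β hb
  -- the contradiction
  have hlen : H₀ ≤ B * 2 ^ m := by
    calc H₀ ≤ m := hmH
      _ ≤ 2 ^ m := Nat.lt_two_pow_self.le
      _ ≤ B * 2 ^ m := Nat.le_mul_of_pos_left _ hB1
  have hKlen : (K₀ : ℝ) * Real.log ((B * 2 ^ m : ℕ) : ℝ) ≤ X.L := by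
    refine le_trans (mul_le_mul_of_nonneg_left ?_ (Nat.cast_nonneg _)) hX2
    apply Real.log_le_log
    · have : 0 < B * 2 ^ m := Nat.mul_pos hB1 (Nat.pow_pos (by norm_num))
      exact_mod_cast this
    · have h1 : m ≤ W₁ := by omega
      have h2 : B * 2 ^ m ≤ B * 2 ^ W₁ :=
        Nat.mul_le_mul_left _ (Nat.pow_le_pow_right (by norm_num) h1)
      calc ((B * 2 ^ m : ℕ) : ℝ) ≤ ((B * 2 ^ W₁ : ℕ) : ℝ) := by exact_mod_cast h2
        _ = B * 2 ^ W₁ := by push_cast; ring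
  have hfin := hG X (B * 2 ^ m) lam hlen hKlen hLio b' β' hb'
  have hfin' : c₁ * X.L < wlg X (fun n => dst lam R (B * 2 ^ m) n (b' n) (β' n)) :=
    lt_of_le_of_lt (mul_le_mul_of_nonneg_right hc₁c (by linarith)) hfin
  have h1 : wlg X (fun n => (∑ t ∈ range (2 ^ w),
      dst lam R (B * 2 ^ m) (n + 1 + t) (b n t) (β n t)) / ((2 ^ w : ℕ) : ℝ)) ≤
      wlg X (fun n => 2 / O * ∑ q ∈ oct m, ps lam H (2 ^ w) q n + (c₁ / 32 + c₁ / 8)) := by
    apply wlg_mono
    intro n _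
    refine (hbd n).trans ?_
    have h2 : ∑ q ∈ oct m, fl lam H (2 ^ w) q n (v n q) ≤
        ∑ q ∈ oct m, ps lam H (2 ^ w) q n + O * (c₁ / 64) := by
      calc ∑ q ∈ oct m, fl lam H (2 ^ w) q n (v n q)
          ≤ ∑ q ∈ oct m, (ps lam H (2 ^ w) q n + c₁ / 64) := sum_le_sum fun q _ => hv2 n q
        _ = _ := by rw [sum_add_distrib, sum_const, nsmul_eq_mul]
    have h3 : (∑ q ∈ oct m, fl lam H (2 ^ w) q n (v n q)) / O ≤
        (∑ q ∈ oct m, ps lam H (2 ^ w) q n) / O + c₁ / 64 := by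
      rw [div_le_iff₀ hoct]
      calc ∑ q ∈ oct m, fl lam H (2 ^ w) q n (v n q)
          ≤ ∑ q ∈ oct m, ps lam H (2 ^ w) q n + O * (c₁ / 64) := h2
        _ = ((∑ q ∈ oct m, ps lam H (2 ^ w) q n) / O + c₁ / 64) * O := by
            field_simp
    calc 2 * ((∑ q ∈ oct m, fl lam H (2 ^ w) q n (v n q)) / O) + c₁ / 8
        ≤ 2 * ((∑ q ∈ oct m, ps lam H (2 ^ w) q n) / O + c₁ / 64) + c₁ / 8 := by linarith
      _ = _ := by ring
  have h2 : wlg X (fun n => 2 / O * ∑ q ∈ oct m, ps lam H (2 ^ w) q n + (c₁ / 32 + c₁ / 8)) =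
      2 / O * ∑ q ∈ oct m, wlg X (fun n => ps lam H (2 ^ w) q n) +
        (c₁ / 32 + c₁ / 8) * wlg X (fun _ => 1) := by
    rw [wlg_add, wlg_mul, wlg_const, wlg_sum X (oct m) (fun q n => ps lam H (2 ^ w) q n)]
  have h3 : 2 / O * ∑ q ∈ oct m, wlg X (fun n => ps lam H (2 ^ w) q n) ≤ 16 * c * X.L := by
    calc 2 / O * ∑ q ∈ oct m, wlg X (fun n => ps lam H (2 ^ w) q n)
        ≤ 2 / O * (4 * (2 * c) * O * X.L) := mul_le_mul_of_nonneg_left hsum (by positivity)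
      _ = 16 * c * X.L := by field_simp; ring
  have h4 : (c₁ / 32 + c₁ / 8) * wlg X (fun _ => 1) ≤ (c₁ / 32 + c₁ / 8) * (2 * X.L) := by
    apply mul_le_mul_of_nonneg_left _ (by positivity)
    have := wlg_one_le X
    linarith
  have h5 : 3 * (1 + Real.log ((2 ^ w : ℕ) : ℝ)) ≤ c₁ / 8 * X.L := by
    have h6 : Real.log ((2 ^ w : ℕ) : ℝ) ≤ W₁ := by
      push_cast
      rw [Real.log_pow]
      have h7 : Real.log 2 ≤ 1 := by
        have := Real.log_two_lt_d9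
        linarith
      have h8 : (w : ℝ) ≤ W₁ := by exact_mod_cast hw
      have h9 : 0 ≤ Real.log 2 := Real.log_nonneg (by norm_num)
      nlinarith [(Nat.cast_nonneg w : (0 : ℝ) ≤ w)]
    rw [div_mul_eq_mul_div, div_le_iff₀ hc₁0] at hX3
    linarith
  have h6 : c₁ * X.L < 16 * c * X.L + (c₁ / 32 + c₁ / 8) * (2 * X.L) + c₁ / 8 * X.L := by
    refine lt_of_lt_of_le hfin' (hd.trans ?_)
    linarith
  have h7 : 0 < c₁ * X.L := by positivity
  rw [hc] at h6
  nlinarith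

end Pool.Agent.H6.QP
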